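import Pool.Agent.Y229.LP3
import Pool.Agent.Y230.RS.Padic
import Pool.Agent.Y230.HS.Strong

set_option autoImplicit false
set_option linter.unusedSectionVars false
set_option linter.unusedVariables false

/-! # The strong conjecture for products of powers of forms, and sums of ideals -/

namespace Pool.Agent.Y230.TS

open MvPolynomial Pool.Agent.W574.MO Pool.Agent.W574.SM Pool.Agent.W574.LM Pool.Agent.W574.HS
  Pool.Agent.W574.RO Pool.Agent.W574.CN Pool.Agent.TH192.DT Pool.Agent.Y229 Pool.Agent.Y230.RS
  Pool.Agent.W425.SM Pool.Agent.W425.SV Pool.Agent.W422.GC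

/-- `StrongGlobal A Z`: `A` generates one of the following ideals, and `Z` is its global topological
zeta function: the ideals in `Basic`, with `PlaneZeta` for the ideals of `ℂ[x, y]`; the principal
ideals `(g)`, where `g = ∑_j a_j x ^ (v j) + h`, `h` has coefficients in the field `F` and its exponents
lie in the convex hull of the `v j ≠ 0`, and the `a_j` are algebraically independent over `F`, with
the zeta function `topZetaG v R`, computed on the embedded resolution which belongs to any smooth fan
`R` on which the ideal `(x ^ (v j))_j` becomes principal; the ideals with a log resolution with the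
divisors `E_i` such that all the numbers `-(k_i + 1) / a_i` come from Rees divisors, where
`a i = ord_{E_i} I` and `k i = ord_{E_i} K`, with the zeta function `topZeta a k χ`, where
`χ S = χ(E_S°)`. -/
inductive StrongGlobal : Fam → RatFunc ℂ → Prop
  /-- the ideals in the list `Basic` -/
  | basic (A : Fam) (Z : RatFunc ℂ) (h : Basic (fun _ f Z => PlaneZeta f Z) A Z) : StrongGlobal A Z
  /-- principal ideals with very general coefficients at the vertices of the Newton polytope -/
  | generic (r N : ℕ) (hr : 1 ≤ r) (F : Subfield ℂ) (v : Fin r → Fin N → ℕ)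
      (hv : Function.Injective v) (hv0 : ∀ j, v j ≠ 0) (h : MvPolynomial (Fin N) F)
      (hh : ∀ w ∈ h.support, Hull v w) (a : Fin r → ℂ) (ha : AlgebraicIndependent F a)
      (R : SmoothFan N) (hR : Principal v R) :
      StrongGlobal ⟨Fin N, Fin 1, fun _ => sparse v a + MvPolynomial.map (algebraMap F ℂ) h⟩
        (topZetaG v R)
  /-- ideals whose numerical data come from Rees divisors -/
  | rees (n r : ℕ) (f : Fin r → MvPolynomial (Fin n) ℂ) (hf : ∃ j, f j ≠ 0)
      (J : Type) [Fintype J] [DecidableEq J] (a k : J → ℕ) (χ : Finset J → ℤ)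
      (h : ∀ i, 0 < a i → (∃ S, χ S ≠ 0 ∧ i ∈ S) → FromRees f (a i) (k i)) :
      StrongGlobal ⟨Fin n, Fin r, f⟩ (topZeta a k χ)

theorem strongGlobal_poles (A : Fam) (Z : RatFunc ℂ) (h : StrongGlobal A Z) :
    (∃ j, A.f j ≠ 0) ∧ ∀ s₀ : ℂ, Z.denom.eval s₀ = 0 → FoG A s₀ := by
  classical
  cases h with
  | basic _ _ h =>
    exact (basic_poles FoG (fun A d hd α hα => hα) _
      (fun r f Z hf hZ s₀ hs b hb => plane_main f b hb Z hZ s₀ hs) A Z h).2
  | generic r N hr F v hv hv0 h hh a ha R hR =>
    obtain ⟨g, hg, h1⟩ := Pool.Agent.W425.GN.gen_top hr v hv hv0 h hh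
    have hga : aeval a g ≠ 0 := fun h0 => hg (ha (by rw [h0, map_zero]))
    obtain ⟨g', hg', h1'⟩ := Pool.Agent.W425.GN.gen_ne (show 0 < r by omega) v hv h
    have hga' : aeval a g' ≠ 0 := fun h0 => hg' (ha (by rw [h0, map_zero]))
    have hne : (sparse v a + MvPolynomial.map (algebraMap F ℂ) h) ≠ 0 := h1' a hga'
    refine ⟨⟨0, hne⟩, fun s₀ hs b hb => ?_⟩
    obtain ⟨P, hP⟩ := (h1 a hga).2 b (isB_of_single _ b hb) R hR
    exact pole_dvd b P _ hP s₀ hs
  | rees n r f hf J a k χ h =>
    refine ⟨hf, fun s₀ hs b hb => ?_⟩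
    by_contra hne
    have key : PoleLE (topZeta a k χ) s₀ 0 := by
      refine topZeta_le a k χ _ _ fun S hS => ?_
      rw [Nat.le_zero, Finset.card_eq_zero, Finset.filter_eq_empty_iff]
      rintro i hi ⟨ha, he⟩
      exact hne (root_of_fromRees _ b hb (a i) (k i) (h i ha ⟨S, hS, hi⟩) _ ha he)
    have key2 := key.rootMultiplicity_le
    have h3 := (Polynomial.rootMultiplicity_pos (RatFunc.denom_ne_zero _)).2 hs
    omega

section

variable {σ T : Type} [Fintype T] [DecidableEq T] {κ : T → Type} [∀ t, Fintype (κ t)]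

/-- **Products of powers of forms: the global strong conjecture.** -/
theorem strong_global_pow [Finite σ] (a : T → ℕ) (ha : ∀ t, 1 ≤ a t) [Nonempty T]
    (f : (t : T) → κ t → MvPolynomial σ ℂ) (Z' : RatFunc ℂ)
    (h : TopSP StrongGlobal (powFam a f) Z')
    (b : Polynomial ℂ) (hb : Pool.Agent.H628R4.TP.IsBFunction (powProd a f) b)
    (s₀ : ℂ) (hs : (Z' * ∏ t, fac (a t) 1).denom.eval s₀ = 0) : b.eval s₀ = 0 := by
  classical
  have : Fintype σ := Fintype.ofFinite σ
  obtain ⟨hne, h1⟩ := top_closure FoG isForcing_global ⊥ StrongGlobal (fun A Z h => by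
    obtain ⟨h1, h2⟩ := strongGlobal_poles A Z h
    exact ⟨h1, fun s hs => ⟨0, AddSubmonoid.zero_mem _, by rw [sub_zero]; exact h2 s hs⟩⟩) _ Z' h
  have hf := powFam_ne a ha f hne
  have hP := powData_global a f hf b hb
  rcases prod_fac_pole a ha Z' s₀ hs with h2 | ⟨t, rfl⟩
  · obtain ⟨u, hu, h3⟩ := h1 s₀ h2
    rw [AddSubmonoid.mem_bot] at hu
    rw [hu, sub_zero] at h3
    refine h3 b ?_
    obtain ⟨P, hP⟩ := hb
    obtain ⟨t0⟩ := (inferInstance : Nonempty T)
    exact fe_of_locEq (hat 1 0) (by rw [hat_one, if_pos rfl]) _ b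
      (locEq_of_powProd a f t0 (by have := ha t0; omega) b 1 P fun s => by
        rw [one_mul]
        exact hP s)
  · exact hP.strict t 0 (by have := ha t; omega)

end

end Pool.Agent.Y230.TS
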